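import Pool.Agent.H62.RotNull2

set_option autoImplicit false
open MeasureTheory

namespace Pool.Agent.Results.MP_e0518f_lc.IrrNull

/-- `N` is Haar null in the group `G` of self-maps (composition, compact-open topology) -/
def HaarNull {X : Type} [TopologicalSpace X] (G : Set C(X, X)) (N : Set G) : Prop :=
  ∃ B : Set G, N ⊆ B ∧ @MeasurableSet G (borel G) B ∧
    ∃ μ : @Measure G (borel G), IsProbabilityMeasure μ ∧ ∀ g h : G,
      μ {x : G | ∃ b ∈ B, x.1 = g.1.comp (b.1.comp h.1)} = 0

/-- `F` (nondecreasing, commuting with `x ↦ x + 1`) is a lift of the circle map `f` -/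
def Lifts (F : CircleDeg1Lift) (f : C(UnitAddCircle, UnitAddCircle)) : Prop :=
  ∀ x : ℝ, f x = (F x : UnitAddCircle)

/-- orientation-preserving homeomorphisms of the circle `ℝ / ℤ` -/
def HPlus : Set C(UnitAddCircle, UnitAddCircle) := {f | Function.Bijective f ∧ ∃ F, Lifts F f}

/-- the elements with irrational rotation number -/
def Irr : Set HPlus :=
  {f | ∃ F, Lifts F f.1 ∧ ∃ x τ : ℝ, Irrational τ ∧
    Filter.Tendsto (fun n : ℕ => (F^[n] x - x) / n) Filter.atTop (nhds τ)}

theorem result : HaarNull HPlus Irr := by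
  let : MeasurableSpace HPlus := borel _
  have : BorelSpace HPlus := ⟨rfl⟩
  obtain ⟨h1, h2⟩ := Pool.Agent.H62.RotNull.main HPlus rfl
  refine ⟨_, ?_, h1, h2⟩
  rintro f ⟨F, hF, x, τ, h3, h4⟩ m hm y hy
  induction y using QuotientAddGroup.induction_on with | H y => ?_
  obtain ⟨p, hp⟩ := Pool.Agent.H62.RotNull.coe_eq.mp ((Pool.Agent.H62.RotNull.lift_iter hF m y).symm.trans hy)
  have h5 := F.tendsto_translationNumber x
  simp only [CircleDeg1Lift.coe_pow] at h5
  rw [tendsto_nhds_unique h4 h5, F.translationNumber_of_map_pow_eq_add_int hp hm] at h3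
  exact h3 ⟨p / m, by push_cast; rfl⟩

end Pool.Agent.Results.MP_e0518f_lc.IrrNull
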